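import Pool.Agent.Y671.LD.SpecH

set_option autoImplicit false

/-! # Tasks SH_REL and SH_NEAR (ports of W337/SD/Rel and W613/SDNear) -/

namespace Pool.Agent.Y494.LD

open Complex Filter Topology MeasureTheory Set
open Pool.Agent.H24R2.JP (Om)
open Pool.Agent.W186.SD (UU NG Grow)
open Pool.Agent.Y671.LD

theorem rel : SH_REL := by
  intro B F FT h hH τ r t0 z hτ hr
  rw [(hH.heat τ (I * t0 + r * z) hτ.le).2]
  have hsq : 0 < Real.sqrt τ := Real.sqrt_pos.2 hτ
  have hpi : 0 < Real.sqrt Real.pi := Real.sqrt_pos.2 Real.pi_pos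
  obtain ⟨k, hk⟩ : ∃ k, k = r / (2 * Real.sqrt τ) := ⟨_, rfl⟩
  have hk0 : 0 < k := by rw [hk]; positivity
  have h1 := MeasureTheory.Measure.integral_comp_mul_left
    (fun v : ℝ => ((Real.exp (-v ^ 2) : ℝ) : ℂ) *
      F ((I * t0 + r * z) + ((2 * Real.sqrt τ * v : ℝ) : ℂ))) k
  have h2 : (fun u : ℝ => ((Real.exp (-(k * u) ^ 2) : ℝ) : ℂ) *
      F ((I * t0 + r * z) + ((2 * Real.sqrt τ * (k * u) : ℝ) : ℂ))) =
      fun u : ℝ => ((Real.exp (-(r ^ 2 / (4 * τ) * u ^ 2)) : ℝ) : ℂ) *
        F (I * t0 + r * (z + (u : ℂ))) := by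
    funext u
    have e1 : -(k * u) ^ 2 = -(r ^ 2 / (4 * τ) * u ^ 2) := by
      rw [hk, mul_pow, div_pow, mul_pow, Real.sq_sqrt hτ.le]
      ring
    have e2 : 2 * Real.sqrt τ * (k * u) = r * u := by
      rw [hk]
      field_simp
    rw [e1, e2]
    congr 2
    push_cast
    ring
  rw [h2] at h1
  rw [UU, h1, abs_of_pos (inv_pos.2 hk0)]
  rw [Complex.real_smul, ← mul_assoc, ← Complex.ofReal_mul]
  congr 2
  rw [hk, Real.sqrt_mul Real.pi_pos.le]
  field_simp

theorem xrefl {F : ℂ → ℂ} (hs : ∀ z : ℂ, F (-((starRingEnd ℂ) z)) = (starRingEnd ℂ) (F z)) (t : ℝ)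
    (z : ℂ) : ‖F (I * t + (-((starRingEnd ℂ) z)))‖ = ‖F (I * t + z)‖ := by
  have h := hs (I * t + z)
  have h2 : -((starRingEnd ℂ) (I * t + z)) = I * t + (-((starRingEnd ℂ) z)) := by
    rw [map_add, map_mul, conj_I, conj_ofReal]
    ring
  rw [h2] at h
  rw [h]
  exact RCLike.norm_conj _

theorem seg {F : ℂ → ℂ} (hF : Differentiable ℂ F) (p q : ℂ) (ω κ : ℝ)
    (h : ∀ x ∈ Icc (0 : ℝ) 1, F (p + x * (q - p)) ≠ 0 ∧
      ‖logDeriv F (p + x * (q - p)) - (ω : ℂ)‖ ≤ κ) :
    ‖F q‖ ≤ ‖F p‖ * Real.exp (ω * (q - p).re + κ * ‖q - p‖) := by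
  obtain ⟨d, hd⟩ : ∃ d, d = q - p := ⟨_, rfl⟩
  rw [← hd] at h ⊢
  have hlin : ∀ x : ℝ, HasDerivAt (fun x : ℝ => p + (x : ℂ) * d) d x := by
    intro x
    have h0 : HasDerivAt (fun x : ℝ => (x : ℂ)) 1 x := Complex.ofRealCLM.hasDerivAt
    simpa using (h0.mul_const d).const_add p
  have hlin2 : ∀ x : ℝ, HasDerivAt (fun x : ℝ => -((ω : ℂ) * ((x : ℂ) * d))) (-((ω : ℂ) * d)) x := by
    intro x
    have h0 : HasDerivAt (fun x : ℝ => (x : ℂ)) 1 x := Complex.ofRealCLM.hasDerivAt
    simpa using ((h0.mul_const d).const_mul (ω : ℂ)).fun_neg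
  let G : ℝ → ℂ := fun x => F (p + x * d) * cexp (-((ω : ℂ) * ((x : ℂ) * d)))
  let G' : ℝ → ℂ := fun x => (deriv F (p + x * d) * d) * cexp (-((ω : ℂ) * ((x : ℂ) * d))) +
    F (p + x * d) * (cexp (-((ω : ℂ) * ((x : ℂ) * d))) * (-((ω : ℂ) * d)))
  have hG : ∀ x : ℝ, HasDerivAt G (G' x) x := by
    intro x
    have h3 : HasDerivAt F (deriv F (p + (x : ℂ) * d)) ((fun x : ℝ => p + (x : ℂ) * d) x) :=
      (hF _).hasDerivAt
    have h1 : HasDerivAt (fun x : ℝ => F (p + x * d)) (deriv F (p + x * d) * d) x := by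
      have h4 := h3.comp x (hlin x)
      exact h4
    exact h1.mul (hlin2 x).cexp
  have key := norm_le_gronwallBound_of_norm_deriv_right_le (f := G) (f' := G') (δ := ‖F p‖)
    (K := κ * ‖d‖) (ε := 0) (a := 0) (b := 1)
    (fun x _ => (hG x).continuousAt.continuousWithinAt)
    (fun x _ => (hG x).hasDerivWithinAt) (by simp [G]) ?_ 1 ⟨zero_le_one, le_refl _⟩
  · rw [gronwallBound_ε0, sub_zero, mul_one] at key
    have h1 : ‖G 1‖ = ‖F q‖ * Real.exp (-(ω * d.re)) := by
      simp only [G]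
      rw [norm_mul, Complex.norm_exp]
      congr 2
      · rw [hd]; simp
      · simp
    rw [h1] at key
    have h2 : ‖F q‖ = ‖F q‖ * Real.exp (-(ω * d.re)) * Real.exp (ω * d.re) := by
      rw [mul_assoc, ← Real.exp_add]; simp
    rw [h2, Real.exp_add, mul_comm (Real.exp (ω * d.re)), ← mul_assoc]
    gcongr
  · intro x hx
    obtain ⟨hx1, hx2⟩ := h x ⟨hx.1, hx.2.le⟩
    have hG' : G' x = d * (logDeriv F (p + x * d) - (ω : ℂ)) * G x := by
      simp only [G, G']
      rw [logDeriv_apply]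
      field_simp
      ring
    rw [hG', norm_mul, norm_mul, add_zero]
    have : ‖d‖ * ‖logDeriv F (p + x * d) - (ω : ℂ)‖ ≤ κ * ‖d‖ := by
      rw [mul_comm]
      gcongr
    gcongr

theorem near : SH_NEAR := by
  intro B0 F FT hs hH R ε hR hε
  obtain ⟨K1, T1, hK1, hT1, hup⟩ := hH.up
  obtain ⟨K2, T2, hK2, hT2, hln⟩ := hH.line
  obtain ⟨x1, K3, hx1, hK3, hlow⟩ := hH.lowr
  obtain ⟨x0, hx0⟩ : ∃ x0, x0 = max x1 10 := ⟨_, rfl⟩
  have hx01 : x1 ≤ x0 := by rw [hx0]; exact le_max_left _ _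
  have hx010 : 10 ≤ x0 := by rw [hx0]; exact le_max_right _ _
  obtain ⟨T3, hT3, hlow⟩ := hlow x0 hx01
  obtain ⟨K0, hK0⟩ : ∃ K0, K0 = K1 + x0 + 10 := ⟨_, rfl⟩
  have hK00 : 10 ≤ K0 := by rw [hK0]; linarith
  obtain ⟨R1, hR1⟩ : ∃ R1, R1 = R + 2 * (2 * K0 + 1) * (R ^ 2 + 1) / ε := ⟨_, rfl⟩
  have hq : 0 < 2 * (2 * K0 + 1) * (R ^ 2 + 1) / ε := by positivity
  have hRR1 : R ≤ R1 := by linarith
  have hR11 : 1 ≤ R1 := by linarith
  have hq2 : (2 * K0 + 1) * (R ^ 2 + 1) ≤ ε / 2 * R1 ^ 2 := by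
    have h0 : R1 ≤ R1 ^ 2 := le_self_pow₀ hR11 two_ne_zero
    have h1 : 2 * (2 * K0 + 1) * (R ^ 2 + 1) / ε ≤ R1 ^ 2 := by linarith
    rw [div_le_iff₀ hε] at h1
    linarith
  obtain ⟨η, hη⟩ : ∃ η, η = min 1 (ε / (4 * R1)) := ⟨_, rfl⟩
  have hη0 : 0 < η := by rw [hη]; positivity
  have hη1 : η ≤ 1 := by rw [hη]; exact min_le_left _ _
  have hη2 : η * (2 * R1) ≤ ε / 2 := by
    have : η ≤ ε / (4 * R1) := by rw [hη]; exact min_le_right _ _
    rw [le_div_iff₀ (by positivity)] at this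
    linarith
  obtain ⟨cc, hcc⟩ : ∃ cc, cc = 2 * K1 + K2 * R1 + K3 * (x0 + 1) + 1 := ⟨_, rfl⟩
  obtain ⟨T0, hT0⟩ : ∃ T0, T0 = T1 + T2 + T3 + 16 * R1 + Real.exp cc + 2 := ⟨_, rfl⟩
  refine ⟨2 * R1 + x0, η, T0, by linarith, hη0, ?_, ?_⟩
  · have := Real.exp_pos cc
    linarith
  intro t ε0 ht hε0 hε01 hfar z hzre hznorm
  have he0 := Real.exp_pos cc
  have htT1 : T1 + R1 ≤ t := by linarith
  have htT2 : T2 ≤ t := by linarith
  have htT3 : T3 ≤ t := by linarith
  have ht8 : R1 ≤ t / 8 := by linarith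
  have ht0 : 0 < t := by linarith
  have hlog : cc ≤ Real.log t := by
    rw [Real.le_log_iff_exp_le ht0]
    linarith
  have hK2R1 : 0 ≤ K2 * R1 := by positivity
  have hK3x : 0 ≤ K3 * (x0 + 1) := by positivity
  have hlog0 : 0 ≤ Real.log t := by linarith
  have hOm : Om t = Real.log t / 2 := rfl
  have hOm0 : 0 ≤ Om t := by rw [hOm]; linarith
  obtain ⟨M, hM⟩ : ∃ M, M = ‖F (I * t + 1)‖ := ⟨_, rfl⟩
  have hM0 : 0 ≤ M := by rw [hM]; exact norm_nonneg _
  -- lower bound at 1
  have hL : hs t ≤ Real.exp (x0 * Real.log t) * M := by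
    have h1 := hlow t htT3
    have h2 := seg hH.diff (I * t + 1) (I * t + (x0 : ℂ)) (Om t) (η * Om t) (by
      intro x hx
      have g1 : 0 ≤ x * (x0 - 1) := mul_nonneg hx.1 (by linarith)
      have g2 : x * (x0 - 1) ≤ x0 - 1 := mul_le_of_le_one_left (by linarith) hx.2
      have hz : (1 + (x : ℂ) * ((x0 : ℂ) - 1)) = ((1 + x * (x0 - 1) : ℝ) : ℂ) := by push_cast; ring
      have h3 := hfar (1 + x * (x0 - 1)) (by
        rw [hz, Complex.ofReal_re]
        linarith) (by
        rw [hz, Complex.norm_real, Real.norm_eq_abs, abs_of_nonneg (by linarith)]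
        linarith)
      have h4 : (I * t + 1 + (x : ℂ) * (I * t + (x0 : ℂ) - (I * t + 1)) : ℂ) =
          I * t + (1 + x * (x0 - 1)) := by
        ring
      rw [h4]
      exact h3)
    have h5 : (I * t + (x0 : ℂ) - (I * t + 1) : ℂ) = ((x0 - 1 : ℝ) : ℂ) := by
      push_cast; ring
    rw [h5, Complex.norm_real, Complex.ofReal_re, ← hM, Real.norm_eq_abs,
      abs_of_nonneg (by linarith)] at h2
    have h6 : hs t = Real.exp (-((Om t - K3) * x0 - K3)) *
        (hs t * Real.exp ((Om t - K3) * x0 - K3)) := by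
      rw [mul_comm (hs t), ← mul_assoc, ← Real.exp_add]; simp
    rw [h6]
    calc Real.exp (-((Om t - K3) * x0 - K3)) * (hs t * Real.exp ((Om t - K3) * x0 - K3))
        ≤ Real.exp (-((Om t - K3) * x0 - K3)) *
          (M * Real.exp (Om t * (x0 - 1) + η * Om t * (x0 - 1))) :=
          mul_le_mul_of_nonneg_left (h1.trans h2) (Real.exp_pos _).le
      _ = Real.exp (-((Om t - K3) * x0 - K3) + (Om t * (x0 - 1) + η * Om t * (x0 - 1))) * M := by
          rw [Real.exp_add (-((Om t - K3) * x0 - K3))]; ring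
      _ ≤ Real.exp (x0 * Real.log t) * M := by
          refine mul_le_mul_of_nonneg_right (Real.exp_le_exp.2 ?_) hM0
          have h8 : η * Om t * (x0 - 1) ≤ 1 * Om t * (x0 - 1) := by
            have : 0 ≤ x0 - 1 := by linarith
            gcongr
          have h9 : Real.log t = 2 * Om t := by rw [hOm]; ring
          rw [h9] at hlog ⊢
          have h10 : -((Om t - K3) * x0 - K3) + (Om t * (x0 - 1) + 1 * Om t * (x0 - 1)) =
            x0 * Om t - 2 * Om t + K3 * (x0 + 1) := by ring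
          have h11 : 0 ≤ x0 * Om t := by
            have : 0 ≤ x0 := by linarith
            positivity
          linarith
  -- upper bound
  have hU : ∀ w : ℂ, |w.re| ≤ 1 / 2 → |w.im| ≤ R1 →
      ‖F (I * t + w)‖ ≤ Real.exp (2 * K0 * Om t) * M := by
    intro w hw1 hw2
    have hwi := abs_le.mp hw2
    have h1 := (hup (t + w.im) (w.re : ℂ) (by linarith [hwi.1]) (by
      rw [Complex.ofReal_im, abs_zero]; norm_num)).1 (by
      rw [Complex.ofReal_re]
      linarith [hwi.1])
    have h2 : (I * ((t + w.im : ℝ) : ℂ) + (w.re : ℂ)) = I * t + w := by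
      apply Complex.ext <;> simp
    rw [h2, Complex.ofReal_re] at h1
    have h3 := hln t w.im htT2 (by linarith)
    have hlog2 : Real.log (t + w.im) ≤ Real.log t + 1 := by
      have h7 : t + w.im ≤ Real.exp 1 * t := by
        have h9 : (2 : ℝ) ≤ Real.exp 1 := by have := Real.exp_one_gt_d9; linarith
        have h8 : t + w.im ≤ 2 * t := by linarith [hwi.2]
        exact h8.trans (mul_le_mul_of_nonneg_right h9 ht0.le)
      calc Real.log (t + w.im) ≤ Real.log (Real.exp 1 * t) := by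
            apply Real.log_le_log _ h7
            linarith [hwi.1]
        _ = Real.log t + 1 := by
            rw [Real.log_mul (Real.exp_pos 1).ne' ht0.ne', Real.log_exp]; ring
    have hlog3 : 0 ≤ Real.log (t + w.im) := Real.log_nonneg (by linarith [hwi.1])
    have hKl : K1 * Real.log (t + w.im) ≤ K1 * (Real.log t + 1) := by gcongr
    have hK2R : K2 * |w.im| ≤ K2 * R1 := by gcongr
    have hOm2 : (Om (t + w.im) + K1) * |w.re| ≤ (Real.log t + 1) / 4 + K1 / 2 := by
      have e1 : Om (t + w.im) = Real.log (t + w.im) / 2 := rfl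
      rw [e1]
      have e2 : 0 ≤ Real.log (t + w.im) / 2 + K1 := by linarith
      calc (Real.log (t + w.im) / 2 + K1) * |w.re| ≤ (Real.log (t + w.im) / 2 + K1) * (1 / 2) := by
            gcongr
        _ ≤ _ := by linarith
    have hst0 := hH.h_pos t
    calc ‖F (I * t + w)‖ ≤ _ := h1
      _ ≤ Real.exp (K1 * (Real.log t + 1)) * (hs t * Real.exp (K2 * R1)) *
          Real.exp ((Real.log t + 1) / 4 + K1 / 2) := by
          have hst1 := hH.h_pos (t + w.im)
          have h4 : hs (t + w.im) ≤ hs t * Real.exp (K2 * R1) :=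
            h3.trans (mul_le_mul_of_nonneg_left (Real.exp_le_exp.2 hK2R) hst0.le)
          exact mul_le_mul (mul_le_mul (Real.exp_le_exp.2 hKl) h4 hst1.le (Real.exp_pos _).le)
            (Real.exp_le_exp.2 hOm2) (Real.exp_pos _).le
            (mul_nonneg (Real.exp_pos _).le (mul_nonneg hst0.le (Real.exp_pos _).le))
      _ ≤ Real.exp (K1 * (Real.log t + 1)) *
          ((Real.exp (x0 * Real.log t) * M) * Real.exp (K2 * R1)) *
          Real.exp ((Real.log t + 1) / 4 + K1 / 2) :=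
          mul_le_mul_of_nonneg_right (mul_le_mul_of_nonneg_left
            (mul_le_mul_of_nonneg_right hL (Real.exp_pos _).le) (Real.exp_pos _).le)
            (Real.exp_pos _).le
      _ = Real.exp (K1 * (Real.log t + 1) + x0 * Real.log t + K2 * R1 +
          ((Real.log t + 1) / 4 + K1 / 2)) * M := by
          have key4 : ∀ a b c d : ℝ, Real.exp (a + b + c + d) =
              Real.exp a * Real.exp b * Real.exp c * Real.exp d := fun a b c d => by
            rw [Real.exp_add, Real.exp_add, Real.exp_add]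
          rw [key4]
          ring
      _ ≤ Real.exp (2 * K0 * Om t) * M := by
          refine mul_le_mul_of_nonneg_right (Real.exp_le_exp.2 ?_) hM0
          rw [hOm, hK0]
          have e3 : 2 * (K1 + x0 + 10) * (Real.log t / 2) = K1 * Real.log t + x0 * Real.log t +
            10 * Real.log t := by ring
          rw [e3]
          have e4 : K1 * (Real.log t + 1) = K1 * Real.log t + K1 := by ring
          rw [e4]
          linarith
  -- the vertical lines
  have hV : ∀ w : ℂ, w.re = ε0 → |w.im| ≤ R1 →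
      ‖F (I * t + w)‖ ≤ M * Real.exp (Om t * (ε0 - 1) + ε / 2 * Om t) := by
    intro w hw1 hw2
    have hnw : ‖w‖ ≤ R1 + 1 / 2 := by
      refine (Complex.norm_le_abs_re_add_abs_im w).trans ?_
      rw [hw1, abs_of_pos (by linarith)]
      linarith
    have hsub : ‖w - 1‖ ≤ 2 * R1 := by
      refine (Complex.norm_le_abs_re_add_abs_im _).trans ?_
      rw [Complex.sub_re, Complex.sub_im, hw1, Complex.one_re, Complex.one_im, sub_zero,
        abs_of_nonpos (by linarith)]
      linarith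
    have h2 := seg hH.diff (I * t + 1) (I * t + w) (Om t) (η * Om t) (by
      intro x hx
      have h3 := hfar (1 + x * (w - 1)) (by
        have g1 : 0 ≤ (1 - x) * (1 - ε0) := mul_nonneg (by linarith [hx.2]) (by linarith)
        simp [hw1]
        linarith) (by
        calc ‖1 + (x : ℂ) * (w - 1)‖ ≤ ‖(1 : ℂ)‖ + ‖(x : ℂ) * (w - 1)‖ := norm_add_le _ _
          _ ≤ 1 + 1 * (2 * R1) := by
              rw [norm_mul, Complex.norm_real, Real.norm_eq_abs, abs_of_nonneg hx.1, norm_one]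
              gcongr
              exact hx.2
          _ ≤ 2 * R1 + x0 := by linarith)
      have h4 : (I * t + 1 + (x : ℂ) * (I * t + w - (I * t + 1)) : ℂ) =
          I * t + (1 + x * (w - 1)) := by
        ring
      rw [h4]
      exact h3)
    have h5 : (I * t + w - (I * t + 1) : ℂ) = w - 1 := by ring
    rw [h5, Complex.sub_re, Complex.one_re, hw1, ← hM] at h2
    refine h2.trans ?_
    refine mul_le_mul_of_nonneg_left (Real.exp_le_exp.mpr (add_le_add le_rfl ?_)) hM0
    calc η * Om t * ‖w - 1‖ ≤ η * Om t * (2 * R1) := by gcongr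
      _ = η * (2 * R1) * Om t := by ring
      _ ≤ ε / 2 * Om t := by gcongr
  have hV2 : ∀ w : ℂ, |w.re| = ε0 → |w.im| ≤ R1 →
      ‖F (I * t + w)‖ ≤ M * Real.exp (Om t * (ε0 - 1) + ε / 2 * Om t) := by
    intro w hw1 hw2
    rcases abs_cases w.re with ⟨h, -⟩ | ⟨h, -⟩
    · exact hV w (by rw [← h]; exact hw1) hw2
    · rw [← xrefl hH.symm]
      refine hV _ ?_ ?_
      · rw [Complex.neg_re, Complex.conj_re, ← h]; exact hw1
      · rw [Complex.neg_im, Complex.conj_im, neg_neg]; exact hw2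
  -- the auxiliary function
  obtain ⟨B, hB⟩ : ∃ B, B = (2 * K0 + 1) * Om t / R1 ^ 2 := ⟨_, rfl⟩
  have hB0 : 0 ≤ B := by rw [hB]; positivity
  have hBR : B * R1 ^ 2 = (2 * K0 + 1) * Om t := by
    rw [hB]; field_simp
  have hBε : B * (R ^ 2 + 1) ≤ ε / 2 * Om t := by
    have h1 : (2 * K0 + 1) * (R ^ 2 + 1) / R1 ^ 2 ≤ ε / 2 := by
      rw [div_le_iff₀ (by positivity)]; exact hq2
    calc B * (R ^ 2 + 1) = (2 * K0 + 1) * (R ^ 2 + 1) / R1 ^ 2 * Om t := by rw [hB]; ring
      _ ≤ ε / 2 * Om t := by gcongr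
  let h : ℂ → ℂ := fun w => F (I * t + w) * cexp (B * w ^ 2)
  have hdiff : Differentiable ℂ h := by
    have h1 : Differentiable ℂ fun w : ℂ => F (I * t + w) :=
      hH.diff.comp ((differentiable_const _).add differentiable_id)
    have h2 : Differentiable ℂ fun w : ℂ => cexp (B * w ^ 2) :=
      ((differentiable_const _).mul (differentiable_id.pow 2)).cexp
    exact h1.mul h2
  have hnexp : ∀ w : ℂ, ‖cexp (B * w ^ 2)‖ = Real.exp (B * (w.re ^ 2 - w.im ^ 2)) := by
    intro w
    rw [Complex.norm_exp]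
    congr 1
    rw [Complex.re_ofReal_mul, sq w, Complex.mul_re]
    ring
  obtain ⟨C, hC⟩ : ∃ C, C = M * Real.exp (Om t * (ε0 - 1) + ε / 2 * Om t + B / 4) := ⟨_, rfl⟩
  have hmax : ‖h z‖ ≤ C := by
    have hz1 : |z.im| ≤ R1 := (Complex.abs_im_le_norm z).trans (hznorm.trans hRR1)
    refine Complex.norm_le_of_forall_mem_frontier_norm_le
      (U := (Ioo (-ε0) ε0) ×ℂ (Ioo (-R1) R1)) ?_ hdiff.diffContOnCl ?_ ?_
    · exact (Metric.isBounded_Ioo _ _).reProdIm (Metric.isBounded_Ioo _ _)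
    · intro w hw
      rw [Complex.frontier_reProdIm, closure_Ioo (by linarith), closure_Ioo (by linarith),
        frontier_Ioo (by linarith), frontier_Ioo (by linarith)] at hw
      simp only [h]
      rw [norm_mul, hnexp, hC]
      rcases hw with ⟨hw1, hw2⟩ | ⟨hw1, hw2⟩
      · -- horizontal sides
        have hre : |w.re| ≤ ε0 := abs_le.mpr hw1
        have him : w.im ^ 2 = R1 ^ 2 := by
          rcases hw2 with hw2 | hw2
          · rw [hw2]; ring
          · rw [hw2]
        have him' : |w.im| ≤ R1 := by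
          rw [← abs_of_pos (by linarith : 0 < R1)]
          exact (sq_le_sq.mp him.le)
        have hre2 : w.re ^ 2 ≤ 1 / 4 := by
          have : |w.re| ^ 2 ≤ (1 / 2) ^ 2 := by
            gcongr
            linarith
          rw [sq_abs] at this
          linarith
        calc ‖F (I * t + w)‖ * Real.exp (B * (w.re ^ 2 - w.im ^ 2))
            ≤ (Real.exp (2 * K0 * Om t) * M) * Real.exp (B * (w.re ^ 2 - w.im ^ 2)) := by
              gcongr
              exact hU w (by linarith) him'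
          _ = M * Real.exp (2 * K0 * Om t + B * (w.re ^ 2 - w.im ^ 2)) := by
              rw [Real.exp_add]; ring
          _ ≤ _ := by
              refine mul_le_mul_of_nonneg_left (Real.exp_le_exp.mpr ?_) hM0
              rw [him, mul_sub, hBR]
              have h1 : B * w.re ^ 2 ≤ B * (1 / 4) := by gcongr
              have h2 : 0 ≤ Om t * ε0 := by
                have : 0 ≤ ε0 := by linarith
                positivity
              have h3 : 0 ≤ ε / 2 * Om t := by positivity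
              linarith
      · -- vertical sides
        have him : |w.im| ≤ R1 := abs_le.mpr hw2
        have hre : |w.re| = ε0 := by
          rcases hw1 with hw1 | hw1
          · rw [hw1, abs_neg, abs_of_pos (by linarith)]
          · rw [hw1, abs_of_pos (by linarith)]
        have hre2 : w.re ^ 2 ≤ 1 / 4 := by
          rw [← sq_abs, hre]
          have g2 := pow_le_pow_left₀ (by linarith : 0 ≤ ε0) hε01 2
          linarith
        calc ‖F (I * t + w)‖ * Real.exp (B * (w.re ^ 2 - w.im ^ 2))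
            ≤ (M * Real.exp (Om t * (ε0 - 1) + ε / 2 * Om t)) *
                Real.exp (B * (w.re ^ 2 - w.im ^ 2)) := by
              gcongr
              exact hV2 w hre him
          _ = M * Real.exp (Om t * (ε0 - 1) + ε / 2 * Om t + B * (w.re ^ 2 - w.im ^ 2)) := by
              rw [Real.exp_add (Om t * (ε0 - 1) + ε / 2 * Om t)]; ring
          _ ≤ _ := by
              refine mul_le_mul_of_nonneg_left (Real.exp_le_exp.mpr ?_) hM0
              have h1 : B * (w.re ^ 2 - w.im ^ 2) ≤ B * (1 / 4) :=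
                mul_le_mul_of_nonneg_left (by linarith [sq_nonneg w.im]) hB0
              linarith
    · rw [Complex.closure_reProdIm, closure_Ioo (by linarith), closure_Ioo (by linarith)]
      exact ⟨abs_le.mp hzre, abs_le.mp hz1⟩
  have hfin : ‖F (I * t + z)‖ = ‖h z‖ * Real.exp (-(B * (z.re ^ 2 - z.im ^ 2))) := by
    simp only [h]
    rw [norm_mul, hnexp, mul_assoc, ← Real.exp_add]
    simp
  rw [hfin]
  have hzR : z.im ^ 2 ≤ R ^ 2 := by
    have : |z.im| ^ 2 ≤ R ^ 2 := by
      gcongr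
      exact (Complex.abs_im_le_norm z).trans hznorm
    rwa [sq_abs] at this
  calc ‖h z‖ * Real.exp (-(B * (z.re ^ 2 - z.im ^ 2)))
      ≤ C * Real.exp (B * R ^ 2) := by
        refine mul_le_mul hmax (Real.exp_le_exp.mpr ?_) (Real.exp_pos _).le
          ((norm_nonneg _).trans hmax)
        have h1 := mul_le_mul_of_nonneg_left hzR hB0
        have h2 := mul_nonneg hB0 (sq_nonneg z.re)
        linarith
    _ = M * Real.exp (Om t * (ε0 - 1) + ε / 2 * Om t + B / 4 + B * R ^ 2) := by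
        rw [hC, mul_assoc, ← Real.exp_add]
    _ ≤ M * Real.exp (-((1 - ε0 - ε) * Om t)) := by
        refine mul_le_mul_of_nonneg_left (Real.exp_le_exp.mpr ?_) hM0
        linarith
    _ = _ := by rw [hM]

end Pool.Agent.Y494.LD
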